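import Pool.Agent.Lib.MP_c6118e_pr.Win.FULL

/-!
# Balanced hard-core configurations on the hypercube: the full answer
-/

namespace Pool.Agent.Results.MP_c6118e_pr.FullAsymptotics

open Real Pool.Agent.Lib.MP_c6118e_pr.Model

/-- The probability of the balanced event is `exp(-Θ(lam^2 2^d))` for
`C / d ≤ lam ≤ 1/√d` and `exp(-Θ(log(1+lam) 2^d/√d))` for `lam ≥ 1/√d`, with universal
constants. -/
theorem result : ∃ C c₁ c₂ : ℝ, ∃ d₀ : ℕ, 0 < C ∧ 0 < c₁ ∧ 0 < c₂ ∧ ∀ d ≥ d₀, ∀ lam : ℝ,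
    (C / d ≤ lam → lam ≤ 1 / √d →
      exp (-(c₂ * (lam ^ 2 * 2 ^ d))) ≤ muBal d lam ∧
      muBal d lam ≤ exp (-(c₁ * (lam ^ 2 * 2 ^ d)))) ∧
    (1 / √d ≤ lam →
      exp (-(c₂ * (log (1 + lam) / √d * 2 ^ d))) ≤ muBal d lam ∧
      muBal d lam ≤ exp (-(c₁ * (log (1 + lam) / √d * 2 ^ d)))) :=
  Pool.Agent.Lib.MP_c6118e_pr.Win.full

end Pool.Agent.Results.MP_c6118e_pr.FullAsymptotics
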